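import Pool.Agent.Work.MP_3242df_cf.Def
import Pool.Agent.Work.MP_3242df_lt.B_ASM2
import Pool.Agent.Work.MP_3242df_lt.B_STEP2
import Pool.Agent.Work.MP_3242df_lt.OUT
import Pool.Agent.Work.MP_3242df_lt.STEP3
import Pool.Agent.Work.MP_3242df_lt.B_REG

/-! Block D2 (helper88): the inequality on the plane. -/

set_option autoImplicit false

open MeasureTheory Matrix Finset
open scoped BigOperators ComplexOrder Topology

namespace Pool.CF.D2

open Pool.LT Pool.LT.ASM2

theorem asm (N : ℕ) (R : ℝ) (u u1 u2 : ℝ → ℝ → Fin N → ℂ) (hR0 : 0 < R)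
    (hu : Continuous (fun p : ℝ × ℝ => u p.1 p.2))
    (hu1 : Continuous (fun p : ℝ × ℝ => u1 p.1 p.2))
    (hu2 : Continuous (fun p : ℝ × ℝ => u2 p.1 p.2))
    (hs : ∀ x y, R ≤ |x| ∨ R ≤ |y| → u x y = 0)
    (hd1 : ∀ x y i, HasDerivAt (fun s => u s y i) (u1 x y i) x)
    (hd2 : ∀ x y i, HasDerivAt (fun s => u x s i) (u2 x y i) y)
    (ho : ∀ i j, ∫ x, ∫ y, u x y i * (starRingEnd ℂ) (u x y j) = (1 : Mat N) i j)
    (c : ℝ) (hc : 0 < c) :
    3 / 5 * (3 * Real.pi * c) ^ ((2 : ℝ) / 3) * (∫ x, ∫ y, (∑ i, ‖u x y i‖ ^ 2) ^ ((5 : ℝ) / 3))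
      ≤ (∫ x, ∫ y, ∑ i, (‖u1 x y i‖ ^ 2 + ‖u2 x y i‖ ^ 2)) + c ^ 2 / 12 * N := by
  have hp3 : Stmt_STEP3 := stmt_STEP3 stmt_STEP2 stmt_OUT
  have z1 : ∀ x y, R + 1 ≤ |x| ∨ R + 1 ≤ |y| → u1 x y = 0 := by
    intro x y h
    funext i
    rcases h with h | h
    · exact deriv_zero (R := R) (fun s hs' => by rw [hs s y (Or.inl hs')]; rfl) (hd1 x y i)
        (by linarith)
    · have e : (fun s => u s y i) = fun _ => (0 : ℂ) := by
        funext s
        rw [hs s y (Or.inr (by linarith))]; rfl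
      have := hd1 x y i
      rw [e] at this
      exact this.unique (hasDerivAt_const x (0 : ℂ))
  have z2 : ∀ x y, R + 1 ≤ |x| ∨ R + 1 ≤ |y| → u2 x y = 0 := by
    intro x y h
    funext i
    rcases h with h | h
    · have e : (fun s => u x s i) = fun _ => (0 : ℂ) := by
        funext s
        rw [hs x s (Or.inl (by linarith))]; rfl
      have := hd2 x y i
      rw [e] at this
      exact this.unique (hasDerivAt_const y (0 : ℂ))
    · exact deriv_zero (R := R) (fun s hs' => by rw [hs x s (Or.inr hs')]; rfl) (hd2 x y i)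
        (by linarith)
  -- the matrices
  let S : ℝ → Mat N := fun x => Matrix.of fun i j => ∫ y, u x y i * (starRingEnd ℂ) (u x y j)
  have cx := stmt_REG ℝ volume N R u u1 hR0 hu hu1 (fun x y hx => hs x y (Or.inl hx))
    (fun x y hy => hs x y (Or.inr (by rwa [Real.norm_eq_abs] at hy))) hd1
  have s1 := stmt_STEP2 N R _ _ _ cx c 1 (fun i j => by simpa using ho i j)
  have s2 : ∀ x, 3 / 5 * (3 * Real.pi * c) ^ ((2 : ℝ) / 3) * ∫ y, (∑ i, ‖u x y i‖ ^ 2) ^ ((5 : ℝ) / 3)
      ≤ (∫ y, ∑ i, ‖u2 x y i‖ ^ 2) + c * rtr (S x * S x) := by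
    intro x
    have hcu2 : Continuous (fun y => u2 x y) := hu2.comp (by fun_prop : Continuous fun y : ℝ => (x, y))
    exact hp3 N R (fun y => u x y) (fun y => u2 x y) hR0 (fun y i => hd2 x y i) hcu2
      (fun y hy => hs x y (Or.inr hy)) c hc (S x) (fun i j => rfl)
  -- integrate
  have F0 := dbl (R := R) (F := fun x y => (∑ i, ‖u x y i‖ ^ 2) ^ ((5 : ℝ) / 3))
    (by
      have : ∀ i, Continuous fun p : ℝ × ℝ => u p.1 p.2 i := fun i => (continuous_apply i).comp hu
      have h2 : Continuous fun p : ℝ × ℝ => ∑ i, ‖u p.1 p.2 i‖ ^ 2 := by fun_prop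
      exact h2.rpow_const fun p => Or.inr (by norm_num))
    (fun x y h => by
      simp only [hs x y h, Pi.zero_apply, norm_zero]
      simp)
  have F1 := dbl (R := R + 1) (F := fun x y => ∑ i, ‖u1 x y i‖ ^ 2)
    (by
      have : ∀ i, Continuous fun p : ℝ × ℝ => u1 p.1 p.2 i := fun i => (continuous_apply i).comp hu1
      fun_prop)
    (fun x y h => by simp [z1 x y h])
  have F2 := dbl (R := R + 1) (F := fun x y => ∑ i, ‖u2 x y i‖ ^ 2)
    (by
      have : ∀ i, Continuous fun p : ℝ × ℝ => u2 p.1 p.2 i := fun i => (continuous_apply i).comp hu2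
      fun_prop)
    (fun x y h => by simp [z2 x y h])
  have hSc : ∀ i j, Continuous fun x => S x i j := fun i j => by
    have : ∀ x, HasDerivAt (fun y => S y i j) _ x := fun x => cx.deriv x i j
    exact continuous_iff_continuousAt.2 fun x => (this x).continuousAt
  have hS0 : ∀ x, R ≤ |x| → S x = 0 := fun x hx => cx.supp x hx
  have hSi : Integrable (fun x => rtr (S x * S x)) := by
    refine Continuous.integrable_of_hasCompactSupport ?_ (hcs (R := R) fun x hx => ?_)
    · unfold rtr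
      simp only [Matrix.trace, Matrix.diag_apply, Matrix.mul_apply]
      fun_prop
    · rw [hS0 x hx]; simp [rtr]
  have e3 : (∫ x, ∫ y, ∑ i, (‖u1 x y i‖ ^ 2 + ‖u2 x y i‖ ^ 2))
      = (∫ x, ∫ y, ∑ i, ‖u1 x y i‖ ^ 2) + ∫ x, ∫ y, ∑ i, ‖u2 x y i‖ ^ 2 := by
    rw [← integral_add F1.2 F2.2]
    refine integral_congr_ae (Filter.Eventually.of_forall fun x => ?_)
    simp only
    rw [← integral_add (F1.1 x) (F2.1 x)]
    refine integral_congr_ae (Filter.Eventually.of_forall fun y => ?_)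
    simp only
    rw [Finset.sum_add_distrib]
  rw [e3, ← integral_const_mul]
  have s3 : ∫ x, 3 / 5 * (3 * Real.pi * c) ^ ((2 : ℝ) / 3) * ∫ y, (∑ i, ‖u x y i‖ ^ 2) ^ ((5 : ℝ) / 3)
      ≤ ∫ x, ((∫ y, ∑ i, ‖u2 x y i‖ ^ 2) + c * rtr (S x * S x)) :=
    integral_mono (F0.2.const_mul _) (F2.2.add (hSi.const_mul _)) s2
  rw [integral_add F2.2 (hSi.const_mul _), integral_const_mul c] at s3
  have s1' : c * ∫ x, rtr (S x * S x) ≤ (∫ x, ∫ y, ∑ i, ‖u1 x y i‖ ^ 2)
      + c ^ 2 / 12 * rtr ((1 : Mat N) * 1 * 1) := s1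
  have e5 : rtr ((1 : Mat N) * 1 * 1) = N := by
    simp [rtr]
  rw [e5] at s1'
  linarith

end D2

open D2 in
/-- block D2 -/
theorem p_D2 : S_D2 := by
  intro N w hw c hc
  have hcw : ∀ i, Continuous (w i) := fun i => (hw.smooth i).continuous
  have hcf : ∀ i, Continuous (fderiv ℝ (w i)) := fun i =>
    (hw.smooth i).continuous_fderiv one_ne_zero
  have hdw : ∀ i p, HasFDerivAt (w i) (fderiv ℝ (w i) p) p := fun i p =>
    (((hw.smooth i).differentiable one_ne_zero) p).hasFDerivAt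
  -- the support
  have hb : ∀ i, ∃ B : ℝ, ∀ p, B < ‖p‖ → w i p = 0 := by
    intro i
    obtain ⟨B, hB⟩ := (hw.supp i).isCompact.isBounded.subset_closedBall (0 : ℝ × ℝ)
    refine ⟨B, fun p hp => ?_⟩
    by_contra h
    have := hB (subset_tsupport _ h)
    rw [Metric.mem_closedBall, dist_zero_right] at this
    linarith
  choose B hB using hb
  obtain ⟨R, hR0, hR⟩ : ∃ R : ℝ, 0 < R ∧ ∀ i, B i < R := by
    obtain ⟨M, hM⟩ := (Set.finite_range B).bddAbove
    refine ⟨max M 0 + 1, by positivity, fun i => ?_⟩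
    have h1 := hM (Set.mem_range_self i)
    have h2 := le_max_left M 0
    linarith
  have hz : ∀ x y, R ≤ |x| ∨ R ≤ |y| → (fun i => w i (x, y)) = 0 := by
    intro x y h
    funext i
    refine hB i (x, y) (lt_of_lt_of_le (hR i) ?_)
    rw [Prod.norm_def]
    rcases h with h | h
    · exact le_trans h (le_max_left _ _)
    · exact le_trans h (le_max_right _ _)
  have ho : ∀ i j, ∫ x, ∫ y, w i (x, y) * (starRingEnd ℂ) (w j (x, y)) = (1 : Pool.LT.Mat N) i j := by
    intro i j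
    have h1 : Integrable (fun p : ℝ × ℝ => w i p * (starRingEnd ℂ) (w j p)) := by
      refine Continuous.integrable_of_hasCompactSupport ((hcw i).mul
        (Complex.continuous_conj.comp (hcw j))) ?_
      exact (hw.supp i).mul_right
    have h2 := integral_prod _ h1
    have h3 := hw.orth j i
    have h4 : ∫ p, (starRingEnd ℂ) (w j p) * w i p = ∫ p, w i p * (starRingEnd ℂ) (w j p) := by
      refine integral_congr_ae (Filter.Eventually.of_forall fun p => ?_)
      simp only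
      ring
    have h5 : ∫ p : ℝ × ℝ, w i p * (starRingEnd ℂ) (w j p)
        = ∫ x, ∫ y, w i (x, y) * (starRingEnd ℂ) (w j (x, y)) := h2
    rw [← h5, ← h4, h3, Matrix.one_apply]
    by_cases h : i = j
    · subst h; simp
    · rw [if_neg h, if_neg (fun h' => h h'.symm)]
  have key := asm N R (fun x y i => w i (x, y)) (fun x y i => fderiv ℝ (w i) (x, y) (1, 0))
    (fun x y i => fderiv ℝ (w i) (x, y) (0, 1)) hR0
    (continuous_pi fun i => hcw i)
    (continuous_pi fun i => (hcf i).clm_apply continuous_const)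
    (continuous_pi fun i => (hcf i).clm_apply continuous_const)
    hz
    (fun x y i => by
      have h1 : HasDerivAt (fun s : ℝ => (s, y)) ((1 : ℝ), (0 : ℝ)) x :=
        (hasDerivAt_id x).prodMk (hasDerivAt_const x y)
      exact (hdw i (x, y)).comp_hasDerivAt x h1)
    (fun x y i => by
      have h1 : HasDerivAt (fun s : ℝ => (x, s)) ((0 : ℝ), (1 : ℝ)) y :=
        (hasDerivAt_const y x).prodMk (hasDerivAt_id y)
      exact (hdw i (x, y)).comp_hasDerivAt y h1)
    ho c hc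
  have hcs : ∀ g : ℝ × ℝ → ℝ, Continuous g → (∀ p, R < ‖p‖ → g p = 0) → Integrable g := by
    intro g hg h
    refine hg.integrable_of_hasCompactSupport
      (HasCompactSupport.intro (isCompact_closedBall (0 : ℝ × ℝ) R) ?_)
    intro p hp
    apply h
    rw [Metric.mem_closedBall, dist_zero_right, not_le] at hp
    exact hp
  have e1 : ∫ p : ℝ × ℝ, (∑ i, ‖w i p‖ ^ 2) ^ ((5 : ℝ) / 3)
      = ∫ x, ∫ y, (∑ i, ‖w i (x, y)‖ ^ 2) ^ ((5 : ℝ) / 3) := by
    have h1 : Integrable (fun p : ℝ × ℝ => (∑ i, ‖w i p‖ ^ 2) ^ ((5 : ℝ) / 3)) := by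
      have h2 : Continuous fun p : ℝ × ℝ => ∑ i, ‖w i p‖ ^ 2 := by fun_prop
      refine hcs _ (h2.rpow_const fun p => Or.inr (by norm_num)) fun p hp => ?_
      have h3 : ∀ i, w i p = 0 := fun i => hB i p (lt_trans (hR i) hp)
      simp only [h3, norm_zero]
      simp
    exact integral_prod _ h1
  have e2 : T2 w = ∫ x, ∫ y, ∑ i, (‖fderiv ℝ (w i) (x, y) (1, 0)‖ ^ 2
      + ‖fderiv ℝ (w i) (x, y) (0, 1)‖ ^ 2) := by
    have h1 : ∀ i, Integrable (fun p : ℝ × ℝ => ‖fderiv ℝ (w i) p (1, 0)‖ ^ 2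
        + ‖fderiv ℝ (w i) p (0, 1)‖ ^ 2) := by
      intro i
      have c1 : Continuous fun p => fderiv ℝ (w i) p (1, 0) := (hcf i).clm_apply continuous_const
      have c2 : Continuous fun p => fderiv ℝ (w i) p (0, 1) := (hcf i).clm_apply continuous_const
      refine hcs _ (by fun_prop) fun p hp => ?_
      have h0 : fderiv ℝ (w i) p = 0 := by
        have h4 : w i =ᶠ[𝓝 p] fun _ => (0 : ℂ) := by
          have : ∀ᶠ q in 𝓝 p, R < ‖q‖ := (continuous_norm.tendsto p).eventually (lt_mem_nhds hp)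
          filter_upwards [this] with q hq
          exact hB i q (lt_trans (hR i) hq)
        rw [h4.fderiv_eq]
        simp
      rw [h0]
      simp
    unfold T2
    rw [← integral_finsetSum _ fun i _ => h1 i]
    exact integral_prod _ (integrable_finsetSum _ fun i _ => h1 i)
  rw [e1, e2]
  exact key

end Pool.CF
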