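import Pool.Agent.Work.MP_3242df_cf.Def

/-!
# Families with a common factor: blocks EA, EB, EC, ED (the product functions on `ℝ³`)
-/

set_option autoImplicit false

open MeasureTheory

namespace Pool.CF

namespace E

abbrev E3 := EuclideanSpace ℝ (Fin 3)

/-- the point `(x, y, z)` -/
noncomputable def pt (x y z : ℝ) : E3 := WithLp.toLp 2 ![x, y, z]

/-- the measurable equivalence with `ℝ × ℝ × ℝ` -/
noncomputable def eqv : ℝ × ℝ × ℝ ≃ᵐ E3 :=
  ((MeasurableEquiv.refl ℝ).prodCongr (MeasurableEquiv.finTwoArrow (α := ℝ)).symm).trans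
    ((MeasurableEquiv.piFinSuccAbove (fun _ : Fin 3 => ℝ) 0).symm.trans
      (MeasurableEquiv.toLp 2 (Fin 3 → ℝ)))

lemma eqv_apply (p : ℝ × ℝ × ℝ) : eqv p = pt p.1 p.2.1 p.2.2 := by
  ext i
  fin_cases i <;> simp [eqv, pt, MeasurableEquiv.piFinSuccAbove, MeasurableEquiv.finTwoArrow] <;> rfl

lemma eqv_mp : MeasurePreserving eqv volume volume := by
  have h1 : MeasurePreserving
      ((MeasurableEquiv.refl ℝ).prodCongr (MeasurableEquiv.finTwoArrow (α := ℝ)).symm)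
      (volume : Measure (ℝ × ℝ × ℝ)) (volume : Measure (ℝ × (Fin 2 → ℝ))) :=
    (MeasurePreserving.id (volume : Measure ℝ)).prod
      ((volume_preserving_finTwoArrow ℝ).symm _)
  have h2 : MeasurePreserving (MeasurableEquiv.piFinSuccAbove (fun _ : Fin 3 => ℝ) 0).symm
      volume volume := (volume_preserving_piFinSuccAbove (fun _ : Fin 3 => ℝ) 0).symm _
  have h3 : MeasurePreserving (MeasurableEquiv.toLp 2 (Fin 3 → ℝ)) volume volume :=
    PiLp.volume_preserving_toLp (Fin 3)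
  exact h3.comp (h2.comp h1)

lemma eqv_coord (p : ℝ × ℝ × ℝ) : eqv p 0 = p.1 ∧ (eqv p 1, eqv p 2) = p.2 := by
  rw [eqv_apply]
  constructor
  · simp [pt]
  · ext <;> simp [pt]

lemma int_prod {L : Type*} [RCLike L] (g : ℝ → L) (h : ℝ × ℝ → L) :
    ∫ x : E3, g (x 0) * h (x 1, x 2) = (∫ x, g x) * ∫ p, h p := by
  rw [← eqv_mp.integral_comp eqv.measurableEmbedding]
  have h1 : ∀ p : ℝ × ℝ × ℝ, g (eqv p 0) * h (eqv p 1, eqv p 2) = g p.1 * h p.2 := by
    intro p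
    rw [(eqv_coord p).1, (eqv_coord p).2]
  simp_rw [h1]
  exact integral_prod_mul g h

lemma integrable_prod (g : ℝ → ℝ) (h : ℝ × ℝ → ℝ) (hg : Integrable g) (hh : Integrable h) :
    Integrable (fun x : E3 => g (x 0) * h (x 1, x 2)) := by
  rw [← eqv_mp.integrable_comp_emb eqv.measurableEmbedding]
  have h1 : (fun x : E3 => g (x 0) * h (x 1, x 2)) ∘ eqv = fun p : ℝ × ℝ × ℝ => g p.1 * h p.2 := by
    funext p
    simp only [Function.comp]
    rw [(eqv_coord p).1, (eqv_coord p).2]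
  rw [h1]
  exact hg.mul_prod hh

lemma continuous_pt : Continuous (fun p : ℝ × ℝ × ℝ => pt p.1 p.2.1 p.2.2) := by
  unfold pt
  refine (PiLp.continuous_toLp 2 (fun _ : Fin 3 => ℝ)).comp ?_
  refine continuous_pi fun i => ?_
  fin_cases i
  · exact continuous_fst
  · exact continuous_fst.comp continuous_snd
  · exact continuous_snd.comp continuous_snd

/-- the last two coordinates -/
noncomputable def q : E3 →L[ℝ] ℝ × ℝ :=
  (EuclideanSpace.proj (1 : Fin 3) : E3 →L[ℝ] ℝ).prod (EuclideanSpace.proj (2 : Fin 3) : E3 →L[ℝ] ℝ)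

lemma q_apply (x : E3) : q x = (x 1, x 2) := rfl

lemma hasFDerivAt_phi {N : ℕ} {f : ℝ → ℂ} {w : Fin N → ℝ × ℝ → ℂ} (hf : Fun1 f) (hw : Fam2 w)
    (i : Fin N) (x : E3) :
    HasFDerivAt (phi f w i)
      (f (x 0) • ((fderiv ℝ (w i) (x 1, x 2)).comp q) +
        w i (x 1, x 2) • ((ContinuousLinearMap.toSpanSingleton ℝ (deriv f (x 0))).comp
          (EuclideanSpace.proj (0 : Fin 3) : E3 →L[ℝ] ℝ))) x := by
  have h1 : HasFDerivAt (fun x : E3 => f (x 0))
      ((ContinuousLinearMap.toSpanSingleton ℝ (deriv f (x 0))).comp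
        (EuclideanSpace.proj (0 : Fin 3) : E3 →L[ℝ] ℝ)) x := by
    have h2 : HasDerivAt f (deriv f (x 0)) (x 0) :=
      (hf.smooth.differentiable one_ne_zero _).hasDerivAt
    exact HasFDerivAt.comp x h2.hasFDerivAt
      (EuclideanSpace.proj (0 : Fin 3) : E3 →L[ℝ] ℝ).hasFDerivAt
  have h3 : HasFDerivAt (fun x : E3 => w i (x 1, x 2))
      ((fderiv ℝ (w i) (x 1, x 2)).comp q) x := by
    have h4 : HasFDerivAt (w i) (fderiv ℝ (w i) (x 1, x 2)) (x 1, x 2) :=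
      ((hw.smooth i).differentiable one_ne_zero _).hasFDerivAt
    exact HasFDerivAt.comp x h4 q.hasFDerivAt
  exact h1.mul h3

lemma norm_w {N : ℕ} {w : Fin N → ℝ × ℝ → ℂ} (hw : Fam2 w) (i : Fin N) :
    ∫ p, ‖w i p‖ ^ 2 = 1 := by
  have h := hw.orth i i
  simp only [if_true] at h
  have h1 : ∀ p, (starRingEnd ℂ) (w i p) * w i p = ((‖w i p‖ ^ 2 : ℝ) : ℂ) := by
    intro p
    rw [Complex.conj_mul']
    push_cast
    rfl
  simp_rw [h1] at h
  rw [integral_complex_ofReal] at h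
  exact_mod_cast h

lemma grad {N : ℕ} {f : ℝ → ℂ} {w : Fin N → ℝ × ℝ → ℂ} (hf : Fun1 f) (hw : Fam2 w)
    (i : Fin N) (x : E3) :
    ∑ j : Fin 3, ‖fderiv ℝ (phi f w i) x (EuclideanSpace.single j (1 : ℝ))‖ ^ 2 =
      ‖deriv f (x 0)‖ ^ 2 * ‖w i (x 1, x 2)‖ ^ 2 +
      ‖f (x 0)‖ ^ 2 * (‖fderiv ℝ (w i) (x 1, x 2) (1, 0)‖ ^ 2 +
        ‖fderiv ℝ (w i) (x 1, x 2) (0, 1)‖ ^ 2) := by
  have q0 : q (EuclideanSpace.single (0 : Fin 3) (1 : ℝ)) = 0 := by
    rw [q_apply]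
    simp
  have q1 : q (EuclideanSpace.single (1 : Fin 3) (1 : ℝ)) = (1, 0) := by
    rw [q_apply]
    simp
  have q2 : q (EuclideanSpace.single (2 : Fin 3) (1 : ℝ)) = (0, 1) := by
    rw [q_apply]
    simp
  rw [(hasFDerivAt_phi hf hw i x).fderiv, Fin.sum_univ_three]
  simp [q0, q1, q2, mul_pow]
  ring

end E

open E

theorem p_EA : S_EA := by
  intro N f w hf hw i
  constructor
  · have h1 : ContDiff ℝ 1 (fun x : E3 => f (x 0)) :=
      hf.smooth.comp (EuclideanSpace.proj (0 : Fin 3) : E3 →L[ℝ] ℝ).contDiff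
    have h2 : ContDiff ℝ 1 (fun x : E3 => w i (x 1, x 2)) := (hw.smooth i).comp q.contDiff
    exact h1.mul h2
  · refine HasCompactSupport.intro
      (K := (fun p : ℝ × ℝ × ℝ => pt p.1 p.2.1 p.2.2) '' (tsupport f ×ˢ tsupport (w i))) ?_ ?_
    · exact (hf.supp.isCompact.prod (hw.supp i).isCompact).image continuous_pt
    · intro x hx
      by_contra hne
      unfold phi at hne
      have h1 : f (x 0) ≠ 0 := left_ne_zero_of_mul hne
      have h2 : w i (x 1, x 2) ≠ 0 := right_ne_zero_of_mul hne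
      refine hx ⟨(x 0, x 1, x 2), ⟨subset_tsupport _ h1, subset_tsupport _ h2⟩, ?_⟩
      ext j
      fin_cases j <;> simp [pt]

theorem p_EB : S_EB := by
  intro N f w hf hw i j
  have h1 : ∀ x : E3, (starRingEnd ℂ) (phi f w i x) * phi f w j x =
      (fun y => (starRingEnd ℂ) (f y) * f y) (x 0) *
        (fun p => (starRingEnd ℂ) (w i p) * w j p) (x 1, x 2) := by
    intro x
    unfold phi
    rw [map_mul]
    ring
  simp_rw [h1]
  rw [int_prod (fun y => (starRingEnd ℂ) (f y) * f y) (fun p => (starRingEnd ℂ) (w i p) * w j p),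
    hw.orth i j]
  have h2 : ∀ y, (starRingEnd ℂ) (f y) * f y = ((‖f y‖ ^ 2 : ℝ) : ℂ) := by
    intro y
    rw [Complex.conj_mul']
    push_cast
    rfl
  simp_rw [h2]
  rw [integral_complex_ofReal, hf.norm]
  simp

theorem p_EC : S_EC := by
  intro N f w hf hw
  have h1 : ∀ x : E3, (∑ i, ‖phi f w i x‖ ^ 2) ^ ((5 : ℝ) / 3) =
      (fun y => (‖f y‖ ^ 2) ^ ((5 : ℝ) / 3)) (x 0) *
        (fun p => (∑ i, ‖w i p‖ ^ 2) ^ ((5 : ℝ) / 3)) (x 1, x 2) := by
    intro x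
    simp only []
    rw [← Real.mul_rpow (sq_nonneg _) (Finset.sum_nonneg fun i _ => sq_nonneg _), Finset.mul_sum]
    congr 1
    refine Finset.sum_congr rfl fun i _ => ?_
    unfold phi
    rw [norm_mul, mul_pow]
  simp_rw [h1]
  exact int_prod (fun y => (‖f y‖ ^ 2) ^ ((5 : ℝ) / 3))
    (fun p => (∑ i, ‖w i p‖ ^ 2) ^ ((5 : ℝ) / 3))

theorem p_ED : S_ED := by
  intro N f w hf hw
  have cf : Integrable (fun y => ‖deriv f y‖ ^ 2) := by
    have hc : Continuous (fun y => ‖deriv f y‖ ^ 2) :=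
      (hf.smooth.continuous_deriv le_rfl).norm.pow 2
    refine hc.integrable_of_hasCompactSupport ?_
    exact hf.supp.deriv.comp_left (g := fun z : ℂ => ‖z‖ ^ 2) (by simp)
  have cf0 : Integrable (fun y => ‖f y‖ ^ 2) := by
    have hc : Continuous (fun y => ‖f y‖ ^ 2) := hf.smooth.continuous.norm.pow 2
    refine hc.integrable_of_hasCompactSupport ?_
    exact hf.supp.comp_left (g := fun z : ℂ => ‖z‖ ^ 2) (by simp)
  have cw : ∀ i, Integrable (fun p => ‖w i p‖ ^ 2) := by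
    intro i
    have hc : Continuous (fun p => ‖w i p‖ ^ 2) := (hw.smooth i).continuous.norm.pow 2
    refine hc.integrable_of_hasCompactSupport ?_
    exact (hw.supp i).comp_left (g := fun z : ℂ => ‖z‖ ^ 2) (by simp)
  have cd : ∀ i, Integrable (fun p => ‖fderiv ℝ (w i) p (1, 0)‖ ^ 2 +
      ‖fderiv ℝ (w i) p (0, 1)‖ ^ 2) := by
    intro i
    have h0 : ∀ v : ℝ × ℝ, Continuous (fun p => fderiv ℝ (w i) p v) := fun v =>
      ((hw.smooth i).continuous_fderiv (by norm_num)).clm_apply continuous_const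
    have hc : Continuous (fun p => ‖fderiv ℝ (w i) p (1, 0)‖ ^ 2 +
      ‖fderiv ℝ (w i) p (0, 1)‖ ^ 2) := ((h0 _).norm.pow 2).add ((h0 _).norm.pow 2)
    refine hc.integrable_of_hasCompactSupport ?_
    exact ((hw.supp i).fderiv (𝕜 := ℝ)).comp_left
      (g := fun A : ℝ × ℝ →L[ℝ] ℂ => ‖A (1, 0)‖ ^ 2 + ‖A (0, 1)‖ ^ 2) (by simp)
  have h1 : ∀ i, ∫ x : E3, ∑ j : Fin 3,
      ‖fderiv ℝ (phi f w i) x (EuclideanSpace.single j (1 : ℝ))‖ ^ 2 =
      (∫ x, ‖deriv f x‖ ^ 2) + ∫ p, (‖fderiv ℝ (w i) p (1, 0)‖ ^ 2 +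
        ‖fderiv ℝ (w i) p (0, 1)‖ ^ 2) := by
    intro i
    simp_rw [grad hf hw i]
    rw [integral_add (integrable_prod _ _ cf (cw i)) (integrable_prod _ _ cf0 (cd i)),
      int_prod (fun y => ‖deriv f y‖ ^ 2) (fun p => ‖w i p‖ ^ 2),
      int_prod (fun y => ‖f y‖ ^ 2) (fun p => ‖fderiv ℝ (w i) p (1, 0)‖ ^ 2 +
        ‖fderiv ℝ (w i) p (0, 1)‖ ^ 2), norm_w hw i, hf.norm, mul_one, one_mul]
  simp_rw [h1]
  rw [Finset.sum_add_distrib]
  unfold T2
  simp

end Pool.CF
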