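import Pool.Agent.Work.MP_3242df_cf.E

/-!
# Families with a common factor: the final step
-/

set_option autoImplicit false

open MeasureTheory

namespace Pool.CF

theorem fin_step (hGN : S_GN) (hD2 : S_D2) : Target := by
  intro N f w hf hw
  rw [p_EC N f w hf hw, p_ED N f w hf hw]
  have hgn := hGN f hf
  obtain ⟨a, ha⟩ : ∃ a : ℝ, a = ∫ x, (‖f x‖ ^ 2) ^ ((5 : ℝ) / 3) := ⟨_, rfl⟩
  obtain ⟨I, hI⟩ : ∃ I : ℝ, I = ∫ p, (∑ i, ‖w i p‖ ^ 2) ^ ((5 : ℝ) / 3) := ⟨_, rfl⟩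
  obtain ⟨T, hT⟩ : ∃ T : ℝ, T = ∫ x, ‖deriv f x‖ ^ 2 := ⟨_, rfl⟩
  rw [← ha, ← hT] at hgn
  rw [← ha, ← hI, ← hT]
  have hN : (0 : ℝ) ≤ N := Nat.cast_nonneg N
  have ha0 : 0 ≤ a := by
    rw [ha]
    exact integral_nonneg fun x => Real.rpow_nonneg (sq_nonneg _) _
  have hT0 : 0 ≤ T := by
    rw [hT]
    exact integral_nonneg fun x => sq_nonneg _
  have hT2 : 0 ≤ T2 w := by
    unfold T2
    refine Finset.sum_nonneg fun i _ => integral_nonneg fun p => ?_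
    exact add_nonneg (sq_nonneg _) (sq_nonneg _)
  rcases ha0.eq_or_lt with h0 | h0
  · rw [← h0, zero_mul, mul_zero]
    positivity
  · have hc : 0 < 2 * Real.pi * a ^ ((3 : ℝ) / 2) := by
      have := Real.pi_pos
      have := Real.rpow_pos_of_pos h0 ((3 : ℝ) / 2)
      positivity
    have h := hD2 N w hw _ hc
    rw [← hI] at h
    have e1 : (3 * Real.pi * (2 * Real.pi * a ^ ((3 : ℝ) / 2))) ^ ((2 : ℝ) / 3) =
        (6 * Real.pi ^ 2) ^ ((2 : ℝ) / 3) * a := by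
      rw [show 3 * Real.pi * (2 * Real.pi * a ^ ((3 : ℝ) / 2)) =
        (6 * Real.pi ^ 2) * a ^ ((3 : ℝ) / 2) by ring,
        Real.mul_rpow (by positivity) (Real.rpow_nonneg ha0 _), ← Real.rpow_mul ha0]
      norm_num
    have e2 : (2 * Real.pi * a ^ ((3 : ℝ) / 2)) ^ 2 / 12 = Real.pi ^ 2 / 3 * a ^ 3 := by
      have : (a ^ ((3 : ℝ) / 2)) ^ 2 = a ^ 3 := by
        rw [← Real.rpow_natCast, ← Real.rpow_mul ha0, ← Real.rpow_natCast]
        norm_num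
      rw [mul_pow, this]
      ring
    rw [e1, e2] at h
    have h2 : Real.pi ^ 2 / 3 * a ^ 3 * N ≤ T * N := mul_le_mul_of_nonneg_right hgn hN
    calc 3 / 5 * (6 * Real.pi ^ 2) ^ ((2 : ℝ) / 3) * (a * I)
        = 3 / 5 * ((6 * Real.pi ^ 2) ^ ((2 : ℝ) / 3) * a) * I := by ring
      _ ≤ T2 w + Real.pi ^ 2 / 3 * a ^ 3 * N := h
      _ ≤ N * T + T2 w := by linarith

end Pool.CF
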