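import Pool.Agent.Work.MP_3242df_cf.Def
import Pool.Agent.Work.MP_3242df_lt.B_ASM3

/-!
# Families with a common factor: block D2 (the plane), second copy
-/

set_option autoImplicit false

open MeasureTheory Matrix Finset
open scoped BigOperators ComplexOrder

namespace Pool.CF

open Pool.LT Pool.LT.ASM3

theorem p_D2x (h2 : Stmt_STEP2) (h3 : Stmt_STEP3) (hreg : Stmt_REG) : S_D2 := by
  intro N w hw c hcpos
  -- a common radius
  have hR : ∃ R : ℝ, 0 < R ∧ ∀ i (p : ℝ × ℝ), R ≤ ‖p‖ → w i p = 0 := by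
    have h : ∀ i, ∃ R : ℝ, 0 < R ∧ ∀ p, R ≤ ‖p‖ → w i p = 0 := by
      intro i
      obtain ⟨R, hR⟩ := (hw.supp i).isCompact.isBounded.subset_ball (0 : ℝ × ℝ)
      refine ⟨max R 1, by positivity, fun p hp => ?_⟩
      by_contra hne
      have hmem : p ∈ tsupport (w i) := subset_tsupport _ hne
      have := hR hmem
      rw [mem_ball_zero_iff] at this
      exact absurd (lt_of_lt_of_le this (le_max_left R 1)) (not_lt.2 hp)
    choose R hR0 hR using h
    refine ⟨1 + ∑ i, R i, by have := Finset.sum_nonneg fun i (_ : i ∈ Finset.univ) => (hR0 i).le; positivity, fun i p hp => hR i p (le_trans ?_ hp)⟩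
    have := Finset.single_le_sum (f := R) (fun i _ => (hR0 i).le) (Finset.mem_univ i)
    linarith
  obtain ⟨R, hR0, hR⟩ := hR
  have hR' : ∀ i x y, (R ≤ |x| ∨ R ≤ |y|) → w i (x, y) = 0 := by
    intro i x y h
    apply hR
    rw [Prod.norm_def, le_max_iff]
    simpa using h
  obtain ⟨u, hu⟩ : ∃ u : ℝ → ℝ → Fin N → ℂ, u = fun x y i => w i (x, y) := ⟨_, rfl⟩
  obtain ⟨u1, hu1⟩ : ∃ u1 : ℝ → ℝ → Fin N → ℂ, u1 = fun x y i => fderiv ℝ (w i) (x, y) (1, 0) :=
    ⟨_, rfl⟩
  obtain ⟨u2, hu2⟩ : ∃ u2 : ℝ → ℝ → Fin N → ℂ, u2 = fun x y i => fderiv ℝ (w i) (x, y) (0, 1) :=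
    ⟨_, rfl⟩
  have hcd : ∀ i (v : ℝ × ℝ), Continuous fun p => fderiv ℝ (w i) p v := fun i v =>
    ((hw.smooth i).continuous_fderiv (by norm_num)).clm_apply continuous_const
  have hc : Continuous (fun p : ℝ × ℝ => u p.1 p.2) := by
    rw [hu]
    exact continuous_pi fun i => (hw.smooth i).continuous
  have hc1 : Continuous (fun p : ℝ × ℝ => u1 p.1 p.2) := by
    rw [hu1]
    exact continuous_pi fun i => hcd i _
  have hc2 : Continuous (fun p : ℝ × ℝ => u2 p.1 p.2) := by
    rw [hu2]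
    exact continuous_pi fun i => hcd i _
  have hs : ∀ x y, (R ≤ |x| ∨ R ≤ |y|) → u x y = 0 := by
    intro x y h
    rw [hu]
    funext i
    exact hR' i x y h
  have hdf : ∀ i p, HasFDerivAt (w i) (fderiv ℝ (w i) p) p := fun i p =>
    ((hw.smooth i).differentiable one_ne_zero p).hasFDerivAt
  have hd1 : ∀ x y i, HasDerivAt (fun s => u s y i) (u1 x y i) x := by
    intro x y i
    rw [hu, hu1]
    have h1 : HasDerivAt (fun s : ℝ => (s, y)) ((1 : ℝ), (0 : ℝ)) x :=
      (hasDerivAt_id x).prodMk (hasDerivAt_const x y)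
    exact (hdf i (x, y)).comp_hasDerivAt x h1
  have hd2 : ∀ x y i, HasDerivAt (fun s => u x s i) (u2 x y i) y := by
    intro x y i
    rw [hu, hu2]
    have h1 : HasDerivAt (fun s : ℝ => (x, s)) ((0 : ℝ), (1 : ℝ)) y :=
      (hasDerivAt_const y x).prodMk (hasDerivAt_id y)
    exact (hdf i (x, y)).comp_hasDerivAt y h1
  have s1 : ∀ x y, (R ≤ |x| ∨ R ≤ |y|) → u1 x y = 0 := by
    intro x y h
    funext i
    rcases h with h | h
    · exact dz (hd1 x y i) (fun s hs' => by rw [hs s y (Or.inl hs')]; rfl) h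
    · have h0 : HasDerivAt (fun s => u s y i) 0 x := by
        have : (fun s => u s y i) = fun _ => 0 := by
          funext s
          rw [hs s y (Or.inr h)]; rfl
        rw [this]
        exact hasDerivAt_const _ _
      exact (hd1 x y i).unique h0
  have s2 : ∀ x y, (R ≤ |x| ∨ R ≤ |y|) → u2 x y = 0 := by
    intro x y h
    funext i
    rcases h with h | h
    · have h0 : HasDerivAt (fun s => u x s i) 0 y := by
        have : (fun s => u x s i) = fun _ => 0 := by
          funext s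
          rw [hs x s (Or.inl h)]; rfl
        rw [this]
        exact hasDerivAt_const _ _
      exact (hd2 x y i).unique h0
    · exact dz (hd2 x y i) (fun s hs' => by rw [hs x s (Or.inr hs')]; rfl) h
  have hsq : ∀ v : ℝ → ℝ → Fin N → ℂ, Continuous (fun p : ℝ × ℝ => v p.1 p.2) →
      (∀ x y, (R ≤ |x| ∨ R ≤ |y|) → v x y = 0) → C2 R (fun x y => ∑ i, ‖v x y i‖ ^ 2) := by
    intro v hv hv0
    refine ⟨?_, fun x y h => ?_⟩
    · apply continuous_finsetSum
      intro i _
      exact ((continuous_norm.comp ((continuous_apply i).comp hv)).pow 2)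
    · simp [hv0 x y h]
  have D0 := hsq u hc hs
  have D1 := hsq u1 hc1 s1
  have D2 := hsq u2 hc2 s2
  have hP : C2 R (fun x y => (∑ i, ‖u x y i‖ ^ 2) ^ ((5 : ℝ) / 3)) := by
    refine ⟨?_, fun x y h => ?_⟩
    · exact D0.c.rpow_const (fun p => Or.inr (by norm_num))
    · have h0 : ∑ i, ‖u x y i‖ ^ 2 = 0 := D0.s x y h
      rw [h0]
      exact Real.zero_rpow (by norm_num)
  have hF : ∀ i j, C2 R (fun x y => u x y i * (starRingEnd ℂ) (u x y j)) := by
    intro i j
    refine ⟨?_, fun x y h => ?_⟩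
    · exact ((continuous_apply i).comp hc).mul
        (Complex.continuous_conj.comp ((continuous_apply j).comp hc))
    · simp [hs x y h]
  obtain ⟨S, hS⟩ : ∃ S : ℝ → Mat N, S = fun x => Matrix.of fun i j =>
    ∫ y, u x y i * (starRingEnd ℂ) (u x y j) := ⟨_, rfl⟩
  have cS : ∀ i j, C1 R (fun x => S x i j) := by
    intro i j
    rw [hS]
    exact (hF i j).fst
  have cSS : C1 R (fun x => rtr (S x * S x)) := by
    have hcc : Continuous S := continuous_matrix fun i j => (cS i j).c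
    refine ⟨?_, fun x hx => ?_⟩
    · unfold rtr
      exact Complex.continuous_re.comp ((hcc.matrix_mul hcc).matrix_trace)
    · have : S x = 0 := by
        ext i j
        exact (cS i j).s x hx
      simp [rtr, this]
  -- Step 2
  have hA : c * ∫ x, rtr (S x * S x) ≤ (∫ x, ∫ y, ∑ i, ‖u1 x y i‖ ^ 2) + c ^ 2 / 12 * N := by
    have cv := hreg ℝ volume N R (fun x y => u x y) (fun x y => u1 x y) hR0 hc hc1
      (fun x y hx => hs x y (Or.inl hx)) (fun x y hy => hs x y (Or.inr hy))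
      (fun x y i => hd1 x y i)
    have hone : ∀ i j, ∫ x, S x i j = (1 : Mat N) i j := by
      intro i j
      rw [hS]
      simp only [Matrix.of_apply]
      rw [← (hF i j).fub, Matrix.one_apply]
      have h4 := hw.orth j i
      have h5 : (fun p : ℝ × ℝ => u p.1 p.2 i * (starRingEnd ℂ) (u p.1 p.2 j)) =
          fun p => (starRingEnd ℂ) (w j p) * w i p := by
        funext p
        rw [hu]
        exact mul_comm _ _
      rw [h5, h4]
      simp [eq_comm]
    have h6 := h2 N R _ _ _ cv c 1 (fun i j => by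
      have := hone i j
      rw [hS] at this
      exact this)
    have h7 : rtr ((1 : Mat N) * 1 * 1) = N := by
      simp [rtr]
    rw [h7] at h6
    rw [hS]
    exact h6
  -- Step 3
  have hB : 3 / 5 * (3 * Real.pi * c) ^ ((2 : ℝ) / 3) *
      (∫ x, ∫ y, (∑ i, ‖u x y i‖ ^ 2) ^ ((5 : ℝ) / 3)) ≤
      (∫ x, ∫ y, ∑ i, ‖u2 x y i‖ ^ 2) + c * ∫ x, rtr (S x * S x) := by
    refine C1.mono3 hP.fst D2.fst cSS _ _ fun x => ?_
    exact h3 N R (u x) (u2 x) hR0 (fun y i => hd2 x y i)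
      (hc2.comp (by fun_prop : Continuous fun y : ℝ => (x, y)))
      (fun y hy => hs x y (Or.inr hy)) c hcpos (S x) (fun i j => by rw [hS]; rfl)
  have e1 : ∫ p, (∑ i, ‖w i p‖ ^ 2) ^ ((5 : ℝ) / 3) =
      ∫ x, ∫ y, (∑ i, ‖u x y i‖ ^ 2) ^ ((5 : ℝ) / 3) := by
    rw [← hP.fub, hu]
  have e2 : T2 w = (∫ x, ∫ y, ∑ i, ‖u1 x y i‖ ^ 2) + ∫ x, ∫ y, ∑ i, ‖u2 x y i‖ ^ 2 := by
    rw [← D1.fub, ← D2.fub, ← integral_add D1.int D2.int]
    unfold T2
    rw [← integral_finsetSum]
    · refine integral_congr_ae (Filter.Eventually.of_forall fun p => ?_)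
      simp only [hu1, hu2, Finset.sum_add_distrib]
    · intro i _
      have hci : Continuous (fun p => ‖fderiv ℝ (w i) p (1, 0)‖ ^ 2 +
        ‖fderiv ℝ (w i) p (0, 1)‖ ^ 2) := ((hcd i _).norm.pow 2).add ((hcd i _).norm.pow 2)
      refine hci.integrable_of_hasCompactSupport ?_
      exact ((hw.supp i).fderiv (𝕜 := ℝ)).comp_left
        (g := fun A : ℝ × ℝ →L[ℝ] ℂ => ‖A (1, 0)‖ ^ 2 + ‖A (0, 1)‖ ^ 2) (by simp)
  rw [e1, e2]
  linarith

end Pool.CF
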