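import Mathlib

/-!
# Families with a common factor: statements of the blocks

`φ_i(x) = f(x_0) w_i(x_1, x_2)`. On the line `(π² / 3) (∫ |f|^(10/3))³ ≤ ∫ |f'|²` if `∫ |f|² = 1`; on the plane
`(3/5) (3 π c)^(2/3) ∫ ρ^(5/3) ≤ T + (c² / 12) N` for all `c > 0`; take `c = 2 π a^(3/2)`, `a = ∫ |f|^(10/3)`.
-/

set_option autoImplicit false

open MeasureTheory

namespace Pool.CF

/-- the product functions on `ℝ³` -/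
noncomputable def phi {N : ℕ} (f : ℝ → ℂ) (w : Fin N → ℝ × ℝ → ℂ) (i : Fin N)
    (x : EuclideanSpace ℝ (Fin 3)) : ℂ := f (x 0) * w i (x 1, x 2)

/-- an orthonormal family in `C_c^1(ℝ²; ℂ)` -/
structure Fam2 {N : ℕ} (w : Fin N → ℝ × ℝ → ℂ) : Prop where
  smooth : ∀ i, ContDiff ℝ 1 (w i)
  supp : ∀ i, HasCompactSupport (w i)
  orth : ∀ i j, ∫ p, (starRingEnd ℂ) (w i p) * w j p = if i = j then (1 : ℂ) else 0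

/-- a normalised function in `C_c^1(ℝ; ℂ)` -/
structure Fun1 (f : ℝ → ℂ) : Prop where
  smooth : ContDiff ℝ 1 f
  supp : HasCompactSupport f
  norm : ∫ x, ‖f x‖ ^ 2 = 1

/-- kinetic energy on the plane -/
noncomputable def T2 {N : ℕ} (w : Fin N → ℝ × ℝ → ℂ) : ℝ :=
  ∑ i, ∫ p, (‖fderiv ℝ (w i) p (1, 0)‖ ^ 2 + ‖fderiv ℝ (w i) p (0, 1)‖ ^ 2)

/-- GN (helper88): the sharp inequality for one function on the line -/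
def S_GN : Prop := ∀ f : ℝ → ℂ, Fun1 f →
  Real.pi ^ 2 / 3 * (∫ x, (‖f x‖ ^ 2) ^ ((5 : ℝ) / 3)) ^ 3 ≤ ∫ x, ‖deriv f x‖ ^ 2

/-- D2 (helper88): the plane, from `STEP2` and `STEP3` of `MP_3242df_lt` -/
def S_D2 : Prop := ∀ (N : ℕ) (w : Fin N → ℝ × ℝ → ℂ), Fam2 w → ∀ c : ℝ, 0 < c →
  3 / 5 * (3 * Real.pi * c) ^ ((2 : ℝ) / 3) * ∫ p, (∑ i, ‖w i p‖ ^ 2) ^ ((5 : ℝ) / 3)
    ≤ T2 w + c ^ 2 / 12 * N

/-- EA (helper39): the product functions are `C_c^1` -/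
def S_EA : Prop := ∀ (N : ℕ) (f : ℝ → ℂ) (w : Fin N → ℝ × ℝ → ℂ), Fun1 f → Fam2 w →
  ∀ i, ContDiff ℝ 1 (phi f w i) ∧ HasCompactSupport (phi f w i)

/-- EB (helper39): orthonormality -/
def S_EB : Prop := ∀ (N : ℕ) (f : ℝ → ℂ) (w : Fin N → ℝ × ℝ → ℂ), Fun1 f → Fam2 w →
  ∀ i j, ∫ x, (starRingEnd ℂ) (phi f w i x) * phi f w j x = if i = j then (1 : ℂ) else 0

/-- EC (helper39): the density -/
def S_EC : Prop := ∀ (N : ℕ) (f : ℝ → ℂ) (w : Fin N → ℝ × ℝ → ℂ), Fun1 f → Fam2 w →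
  ∫ x, (∑ i, ‖phi f w i x‖ ^ 2) ^ ((5 : ℝ) / 3) =
    (∫ x, (‖f x‖ ^ 2) ^ ((5 : ℝ) / 3)) * ∫ p, (∑ i, ‖w i p‖ ^ 2) ^ ((5 : ℝ) / 3)

/-- ED (helper39): the kinetic energy -/
def S_ED : Prop := ∀ (N : ℕ) (f : ℝ → ℂ) (w : Fin N → ℝ × ℝ → ℂ), Fun1 f → Fam2 w →
  ∑ i, ∫ x, ∑ j : Fin 3, ‖fderiv ℝ (phi f w i) x (EuclideanSpace.single j (1 : ℝ))‖ ^ 2 =
    N * (∫ x, ‖deriv f x‖ ^ 2) + T2 w

/-- the theorem -/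
def Target : Prop := ∀ (N : ℕ) (f : ℝ → ℂ) (w : Fin N → ℝ × ℝ → ℂ), Fun1 f → Fam2 w →
  3 / 5 * (6 * Real.pi ^ 2) ^ ((2 : ℝ) / 3) * ∫ x, (∑ i, ‖phi f w i x‖ ^ 2) ^ ((5 : ℝ) / 3) ≤
    ∑ i, ∫ x, ∑ j : Fin 3, ‖fderiv ℝ (phi f w i) x (EuclideanSpace.single j (1 : ℝ))‖ ^ 2

end Pool.CF
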