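import Pool.Agent.Work.MP_3242df_cf.Def

/-! Block GN (helper88): the sharp inequality for one function on the line. -/

set_option autoImplicit false

open MeasureTheory Set Filter Topology

namespace Pool.CF.GN

/-- the speed -/
noncomputable def hh (m v : ℝ) : ℝ := √(m - v ^ ((2 : ℝ) / 3))

theorem hh_cont (m : ℝ) : Continuous (hh m) := by
  unfold hh
  have : Continuous fun v : ℝ => v ^ ((2 : ℝ) / 3) := Real.continuous_rpow_const (by norm_num)
  fun_prop

theorem cube_rpow {v : ℝ} (hv : 0 ≤ v) : (v ^ 3) ^ ((2 : ℝ) / 3) = v ^ 2 := by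
  rw [← Real.rpow_natCast v 3, ← Real.rpow_mul hv, ← Real.rpow_natCast v 2]
  norm_num

theorem hh_int {s : ℝ} (hs : 0 ≤ s) : ∫ v in (0 : ℝ)..(s ^ 3), hh (s ^ 2) v = 3 * Real.pi / 16 * s ^ 4 := by
  have hd : ∀ x ∈ uIcc (0 : ℝ) (Real.pi / 2),
      HasDerivAt (fun x => s ^ 3 * Real.sin x ^ 3) (s ^ 3 * (3 * Real.sin x ^ 2 * Real.cos x)) x := by
    intro x _
    have h1 := ((Real.hasDerivAt_sin x).pow 3).const_mul (s ^ 3)
    simpa using h1
  have h := intervalIntegral.integral_comp_mul_deriv hd (by fun_prop) (hh_cont (s ^ 2))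
  simp only [Real.sin_zero, Real.sin_pi_div_two] at h
  have e0 : s ^ 3 * (0 : ℝ) ^ 3 = 0 := by simp
  have e1 : s ^ 3 * (1 : ℝ) ^ 3 = s ^ 3 := by simp
  rw [e0, e1] at h
  rw [← h]
  have hcongr : ∫ x in (0 : ℝ)..(Real.pi / 2),
      ((hh (s ^ 2)) ∘ fun x => s ^ 3 * Real.sin x ^ 3) x * (s ^ 3 * (3 * Real.sin x ^ 2 * Real.cos x))
      = ∫ x in (0 : ℝ)..(Real.pi / 2), (3 * s ^ 4) * (Real.sin x ^ 2 * Real.cos x ^ 2) := by
    refine intervalIntegral.integral_congr fun x hx => ?_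
    rw [uIcc_of_le (by positivity)] at hx
    have hsin : 0 ≤ Real.sin x := Real.sin_nonneg_of_nonneg_of_le_pi hx.1
      (by linarith [hx.2, Real.pi_pos])
    have hcos : 0 ≤ Real.cos x := Real.cos_nonneg_of_neg_pi_div_two_le_of_le
      (by linarith [hx.1, Real.pi_pos]) hx.2
    simp only [Function.comp, hh]
    rw [← mul_pow, cube_rpow (mul_nonneg hs hsin)]
    have e2 : s ^ 2 - (s * Real.sin x) ^ 2 = (s * Real.cos x) ^ 2 := by
      have := Real.sin_sq_add_cos_sq x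
      nlinarith [this]
    rw [e2, Real.sqrt_sq (mul_nonneg hs hcos)]
    ring
  rw [hcongr, intervalIntegral.integral_const_mul, integral_sin_sq_mul_cos_sq]
  have e3 : Real.sin (4 * (Real.pi / 2)) = 0 := by
    rw [show 4 * (Real.pi / 2) = 2 * Real.pi by ring, Real.sin_two_pi]
  rw [e3]
  simp
  ring

/-- the pointwise inequality -/
theorem point {T n m l d : ℝ} (hn : 0 ≤ n) (hT : 0 ≤ T) (hl : 0 ≤ l) (hd : |d| ≤ 2 * (n * T))
    (hm : (n ^ 2) ^ ((2 : ℝ) / 3) ≤ m) :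
    l * (|d| * hh m (n ^ 2)) ≤ T ^ 2 + l ^ 2 * (m * n ^ 2 - (n ^ 2) ^ ((5 : ℝ) / 3)) := by
  have h0 : 0 ≤ hh m (n ^ 2) := Real.sqrt_nonneg _
  have h1 : hh m (n ^ 2) ^ 2 = m - (n ^ 2) ^ ((2 : ℝ) / 3) := Real.sq_sqrt (by linarith)
  have h2 : (n ^ 2) ^ ((5 : ℝ) / 3) = n ^ 2 * (n ^ 2) ^ ((2 : ℝ) / 3) := by
    rw [show (5 : ℝ) / 3 = 1 + 2 / 3 by norm_num,
      Real.rpow_add_of_nonneg (by positivity) (by norm_num) (by norm_num), Real.rpow_one]
  have h3 : m * n ^ 2 - (n ^ 2) ^ ((5 : ℝ) / 3) = (n * hh m (n ^ 2)) ^ 2 := by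
    rw [h2, mul_pow, h1]
    ring
  rw [h3]
  have h4 : l * (|d| * hh m (n ^ 2)) ≤ l * (2 * (n * T) * hh m (n ^ 2)) :=
    mul_le_mul_of_nonneg_left (mul_le_mul_of_nonneg_right hd h0) hl
  nlinarith [sq_nonneg (T - l * (n * hh m (n ^ 2)))]

end GN

open GN in
/-- block GN -/
theorem p_GN : S_GN := by
  intro f hf
  have hfc : Continuous f := hf.smooth.continuous
  have hdc : Continuous (deriv f) := hf.smooth.continuous_deriv le_rfl
  have hfd : ∀ x, HasDerivAt f (deriv f x) x := fun x =>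
    ((hf.smooth.differentiable one_ne_zero) x).hasDerivAt
  have hrc : Continuous fun x => ‖f x‖ ^ 2 := by fun_prop
  -- the support
  obtain ⟨B0, hB0⟩ := hf.supp.isCompact.isBounded.subset_closedBall (0 : ℝ)
  have hz : ∀ x, B0 < |x| → f x = 0 := by
    intro x hx
    by_contra h
    have := hB0 (subset_tsupport f h)
    rw [Metric.mem_closedBall, dist_zero_right, Real.norm_eq_abs] at this
    linarith
  have hz' : ∀ x, B0 < |x| → deriv f x = 0 := by
    intro x hx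
    by_contra h
    have := hB0 (support_deriv_subset h)
    rw [Metric.mem_closedBall, dist_zero_right, Real.norm_eq_abs] at this
    linarith
  have hcs : ∀ g : ℝ → ℝ, Continuous g → (∀ x, B0 < |x| → g x = 0) → Integrable g := by
    intro g hg h
    refine hg.integrable_of_hasCompactSupport (HasCompactSupport.intro (isCompact_closedBall (0 : ℝ) B0) ?_)
    intro x hx
    apply h
    rw [Metric.mem_closedBall, dist_zero_right, Real.norm_eq_abs, not_le] at hx
    exact hx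
  -- the maximum
  obtain ⟨x0, hx0⟩ : ∃ x0, ∀ x, ‖f x‖ ^ 2 ≤ ‖f x0‖ ^ 2 := by
    obtain ⟨x0, h⟩ := hfc.norm.exists_forall_ge_of_hasCompactSupport hf.supp.norm
    exact ⟨x0, fun x => pow_le_pow_left₀ (norm_nonneg _) (h x) 2⟩
  set R0 : ℝ := ‖f x0‖ ^ 2 with hR0
  have hR0n : 0 ≤ R0 := by positivity
  set s : ℝ := R0 ^ ((1 : ℝ) / 3) with hs
  have hs0 : 0 ≤ s := by positivity
  have hs3 : s ^ 3 = R0 := by
    rw [hs, ← Real.rpow_natCast, ← Real.rpow_mul hR0n]
    norm_num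
  set m : ℝ := s ^ 2 with hm
  have hle : ∀ x, (‖f x‖ ^ 2) ^ ((2 : ℝ) / 3) ≤ m := by
    intro x
    have h1 : (‖f x‖ ^ 2) ^ ((2 : ℝ) / 3) ≤ R0 ^ ((2 : ℝ) / 3) :=
      Real.rpow_le_rpow (by positivity) (hx0 x) (by norm_num)
    rw [← hs3, cube_rpow hs0] at h1
    exact h1
  set A : ℝ := ∫ x, (‖f x‖ ^ 2) ^ ((5 : ℝ) / 3) with hA
  have hA0 : 0 ≤ A := integral_nonneg fun x => by positivity
  set l : ℝ := Real.pi * A with hl
  have hl0 : 0 ≤ l := by positivity
  set B : ℝ := max B0 |x0| + 1 with hB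
  have hBB : B0 < B := by have := le_max_left B0 |x0|; linarith
  have hBx : |x0| < B := by have := le_max_right B0 |x0|; linarith
  have hxl : -B ≤ x0 := by have := neg_abs_le x0; linarith
  have hxr : x0 ≤ B := by have := le_abs_self x0; linarith
  have hBn : 0 ≤ B := le_trans (abs_nonneg x0) hBx.le
  let r' : ℝ → ℝ := fun x => 2 * inner ℝ (f x) (deriv f x)
  have hrd : ∀ x, HasDerivAt (fun x => ‖f x‖ ^ 2) (r' x) x := fun x => (hfd x).norm_sq
  have hr'c : Continuous r' := by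
    show Continuous fun x => 2 * inner ℝ (f x) (deriv f x)
    fun_prop
  have hr'b : ∀ x, |r' x| ≤ 2 * (‖f x‖ * ‖deriv f x‖) := by
    intro x
    show |2 * inner ℝ (f x) (deriv f x)| ≤ _
    rw [abs_mul, abs_of_pos (by norm_num : (0 : ℝ) < 2)]
    have := abs_real_inner_le_norm (f x) (deriv f x)
    linarith
  let F : ℝ → ℝ := fun x => ‖deriv f x‖ ^ 2 + l ^ 2 * (m * ‖f x‖ ^ 2 - (‖f x‖ ^ 2) ^ ((5 : ℝ) / 3))
  have hpc : Continuous fun x => (‖f x‖ ^ 2) ^ ((5 : ℝ) / 3) :=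
    hrc.rpow_const fun x => Or.inr (by norm_num)
  have hFc : Continuous F := by
    show Continuous fun x => ‖deriv f x‖ ^ 2 + l ^ 2 * (m * ‖f x‖ ^ 2 - (‖f x‖ ^ 2) ^ ((5 : ℝ) / 3))
    fun_prop
  have hpt : ∀ x, l * (|r' x| * hh m (‖f x‖ ^ 2)) ≤ F x := fun x =>
    point (norm_nonneg _) (norm_nonneg _) hl0 (hr'b x) (hle x)
  let H : ℝ → ℝ := fun v => ∫ u in (0 : ℝ)..v, hh m u
  have hHd : ∀ v, HasDerivAt H (hh m v) v := fun v =>
    ((hh_cont m).integral_hasStrictDerivAt 0 v).hasDerivAt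
  have hcomp : ∀ x, HasDerivAt (fun x => H (‖f x‖ ^ 2)) (hh m (‖f x‖ ^ 2) * r' x) x := fun x =>
    (hHd _).comp x (hrd x)
  have hgc : Continuous fun x => hh m (‖f x‖ ^ 2) * r' x :=
    ((hh_cont m).comp hrc).mul hr'c
  have hH0 : H 0 = 0 := by
    show ∫ u in (0 : ℝ)..0, hh m u = 0
    exact intervalIntegral.integral_same
  have hHR : H R0 = 3 * Real.pi / 16 * s ^ 4 := by
    show ∫ u in (0 : ℝ)..R0, hh m u = _
    rw [← hs3]
    exact hh_int hs0
  have hfB : f B = 0 := hz B (by rw [abs_of_nonneg hBn]; exact hBB)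
  have hfB' : f (-B) = 0 := hz (-B) (by rw [abs_neg, abs_of_nonneg hBn]; exact hBB)
  have i1 : ∫ x in (-B)..x0, hh m (‖f x‖ ^ 2) * r' x = H R0 := by
    rw [intervalIntegral.integral_eq_sub_of_hasDerivAt (fun x _ => hcomp x)
      (hgc.intervalIntegrable _ _), hfB']
    simp [hH0, hR0]
  have i2 : ∫ x in x0..B, hh m (‖f x‖ ^ 2) * r' x = - H R0 := by
    rw [intervalIntegral.integral_eq_sub_of_hasDerivAt (fun x _ => hcomp x)
      (hgc.intervalIntegrable _ _), hfB]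
    simp [hH0, hR0]
  have j1 : l * H R0 ≤ ∫ x in (-B)..x0, F x := by
    rw [← i1, ← intervalIntegral.integral_const_mul]
    refine intervalIntegral.integral_mono_on hxl ((continuous_const.mul hgc).intervalIntegrable _ _)
      (hFc.intervalIntegrable _ _) fun x _ => ?_
    refine le_trans ?_ (hpt x)
    refine mul_le_mul_of_nonneg_left ?_ hl0
    rw [mul_comm]
    exact mul_le_mul_of_nonneg_right (le_abs_self _) (Real.sqrt_nonneg _)
  have j2 : l * H R0 ≤ ∫ x in x0..B, F x := by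
    have e : l * H R0 = ∫ x in x0..B, (-l) * (hh m (‖f x‖ ^ 2) * r' x) := by
      rw [intervalIntegral.integral_const_mul, i2]
      ring
    rw [e]
    refine intervalIntegral.integral_mono_on hxr ((continuous_const.mul hgc).intervalIntegrable _ _)
      (hFc.intervalIntegrable _ _) fun x _ => ?_
    refine le_trans ?_ (hpt x)
    have h1 : (-l) * (hh m (‖f x‖ ^ 2) * r' x) = l * ((-r' x) * hh m (‖f x‖ ^ 2)) := by ring
    rw [h1]
    refine mul_le_mul_of_nonneg_left ?_ hl0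
    exact mul_le_mul_of_nonneg_right (neg_le_abs _) (Real.sqrt_nonneg _)
  have j3 : ∫ x in (-B)..B, F x = ∫ x, F x := by
    refine intervalIntegral.integral_eq_integral_of_support_subset ?_
    intro x hx
    by_contra hc
    have hxB : B0 < |x| := by
      rw [mem_Ioc, not_and_or, not_lt, not_le] at hc
      rcases hc with h | h
      · have := neg_le_abs x
        linarith
      · have := le_abs_self x
        linarith
    apply hx
    show ‖deriv f x‖ ^ 2 + l ^ 2 * (m * ‖f x‖ ^ 2 - (‖f x‖ ^ 2) ^ ((5 : ℝ) / 3)) = 0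
    rw [hz x hxB, hz' x hxB]
    norm_num
  have j4 : ∫ x, F x = (∫ x, ‖deriv f x‖ ^ 2) + l ^ 2 * (m - A) := by
    have k1 : Integrable fun x => ‖deriv f x‖ ^ 2 :=
      hcs _ (by fun_prop) fun x hx => by rw [hz' x hx]; norm_num
    have k2 : Integrable fun x => ‖f x‖ ^ 2 :=
      hcs _ (by fun_prop) fun x hx => by rw [hz x hx]; norm_num
    have k3 : Integrable fun x => (‖f x‖ ^ 2) ^ ((5 : ℝ) / 3) :=
      hcs _ hpc fun x hx => by rw [hz x hx]; norm_num
    show ∫ x, (‖deriv f x‖ ^ 2 + l ^ 2 * (m * ‖f x‖ ^ 2 - (‖f x‖ ^ 2) ^ ((5 : ℝ) / 3))) = _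
    have k4 : Integrable fun x => m * ‖f x‖ ^ 2 := k2.const_mul m
    have k5 : Integrable fun x => m * ‖f x‖ ^ 2 - (‖f x‖ ^ 2) ^ ((5 : ℝ) / 3) := k4.sub k3
    have k6 : Integrable fun x => l ^ 2 * (m * ‖f x‖ ^ 2 - (‖f x‖ ^ 2) ^ ((5 : ℝ) / 3)) :=
      k5.const_mul _
    rw [integral_add k1 k6, integral_const_mul, integral_sub k4 k3, integral_const_mul, hf.norm,
      mul_one]
  have j5 : (∫ x in (-B)..x0, F x) + ∫ x in x0..B, F x = ∫ x in (-B)..B, F x :=
    intervalIntegral.integral_add_adjacent_intervals (hFc.intervalIntegrable _ _)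
      (hFc.intervalIntegrable _ _)
  have j6 : 2 * (l * (3 * Real.pi / 16 * s ^ 4)) ≤ (∫ x, ‖deriv f x‖ ^ 2) + l ^ 2 * (m - A) := by
    rw [← hHR, ← j4, ← j3, ← j5]
    linarith
  have e4 : s ^ 4 = m ^ 2 := by rw [hm]; ring
  rw [e4, hl] at j6
  have hfin : 0 ≤ Real.pi ^ 2 * A * (3 / 8) * (m - 4 * A / 3) ^ 2 := by positivity
  nlinarith [hfin, j6]

end Pool.CF
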